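import Pool.Agent.Q286.EW.Stm

/-!
# EW-INT: an entire function with prescribed values at the zeros of an entire function
-/

set_option autoImplicit false

namespace Pool.Agent.Q164.EW

open MeasureTheory Metric Set Topology Pool.Agent.Q286.EW
open scoped Real Interval

lemma cauchy_diff {g : ℂ → ℂ} {c w : ℂ} {R : ℝ} (hR : 0 < R)
    (hg : Continuous fun θ : ℝ => g (circleMap c R θ)) (hw : ‖w - c‖ ≠ R) :
    DifferentiableAt ℂ (fun v => ∮ z in C(c, R), g z / (z - v)) w := by
  set ε : ℝ := |‖w - c‖ - R| / 2 with hε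
  have hε0 : 0 < ε := by
    have : 0 < |‖w - c‖ - R| := abs_pos.mpr (sub_ne_zero.mpr hw)
    positivity
  have hdist : ∀ v ∈ ball w ε, ∀ θ : ℝ, ε ≤ ‖circleMap c R θ - v‖ := by
    intro v hv θ
    rw [mem_ball, dist_eq_norm] at hv
    have h1 : ‖circleMap c R θ - c‖ = R := by
      rw [circleMap_sub_center, norm_circleMap_zero, abs_of_pos hR]
    have h2 : |‖circleMap c R θ - c‖ - ‖v - c‖| ≤ ‖circleMap c R θ - v‖ := by
      have := abs_norm_sub_norm_le (circleMap c R θ - c) (v - c)
      rwa [sub_sub_sub_cancel_right] at this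
    have h3 : |‖w - c‖ - ‖v - c‖| ≤ ‖v - w‖ := by
      have := abs_norm_sub_norm_le (w - c) (v - c)
      rwa [sub_sub_sub_cancel_right, norm_sub_rev w v] at this
    rw [h1] at h2
    have h4 : |‖w - c‖ - R| ≤ |‖w - c‖ - ‖v - c‖| + |R - ‖v - c‖| := by
      have := abs_sub_le ‖w - c‖ ‖v - c‖ R
      rwa [abs_sub_comm ‖v - c‖ R] at this
    have h5 : |‖w - c‖ - R| = 2 * ε := by rw [hε]; ring
    linarith
  have hne : ∀ v ∈ ball w ε, ∀ θ : ℝ, circleMap c R θ - v ≠ 0 := by
    intro v hv θ h0
    have := hdist v hv θ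
    rw [h0, norm_zero] at this
    linarith
  obtain ⟨M, hM⟩ := (isCompact_uIcc (a := (0 : ℝ)) (b := 2 * π)).exists_bound_of_continuousOn
    hg.continuousOn
  have hM0 : 0 ≤ M := (norm_nonneg _).trans (hM 0 left_mem_uIcc)
  have hcd : Continuous (fun θ : ℝ => deriv (circleMap c R) θ) := by
    have : (fun θ : ℝ => deriv (circleMap c R) θ) = fun θ => circleMap 0 R θ * Complex.I := by
      funext θ; exact deriv_circleMap c R θ
    rw [this]
    exact (continuous_circleMap 0 R).mul continuous_const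
  have hcont : ∀ v ∈ ball w ε, Continuous fun θ : ℝ =>
      deriv (circleMap c R) θ • (g (circleMap c R θ) / (circleMap c R θ - v)) := by
    intro v hv
    exact hcd.smul (hg.div ((continuous_circleMap c R).sub continuous_const) (hne v hv))
  have hwb : w ∈ ball w ε := mem_ball_self hε0
  have hcont' : Continuous fun θ : ℝ =>
      deriv (circleMap c R) θ • (g (circleMap c R θ) / (circleMap c R θ - w) ^ 2) :=
    hcd.smul (hg.div (((continuous_circleMap c R).sub continuous_const).pow 2)
      fun θ => pow_ne_zero 2 (hne w hwb θ))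
  have key := intervalIntegral.hasDerivAt_integral_of_dominated_loc_of_deriv_le
    (μ := volume) (a := 0) (b := 2 * π)
    (F := fun v (θ : ℝ) => deriv (circleMap c R) θ • (g (circleMap c R θ) / (circleMap c R θ - v)))
    (F' := fun v (θ : ℝ) =>
      deriv (circleMap c R) θ • (g (circleMap c R θ) / (circleMap c R θ - v) ^ 2))
    (x₀ := w) (s := ball w ε) (bound := fun _ => R * (M / ε ^ 2)) (ball_mem_nhds w hε0)
    (by
      filter_upwards [ball_mem_nhds w hε0] with v hv
      exact (hcont v hv).aestronglyMeasurable)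
    ((hcont w hwb).intervalIntegrable _ _)
    hcont'.aestronglyMeasurable
    (ae_of_all _ fun θ hθ v hv => by
      rw [norm_smul, deriv_circleMap, norm_mul, norm_circleMap_zero, Complex.norm_I, mul_one,
        abs_of_pos hR, norm_div, norm_pow]
      refine mul_le_mul_of_nonneg_left ?_ hR.le
      refine div_le_div₀ hM0 (hM θ (uIoc_subset_uIcc hθ)) (by positivity) ?_
      exact pow_le_pow_left₀ hε0.le (hdist v hv θ) 2)
    (intervalIntegrable_const)
    (ae_of_all _ fun θ _ v hv => by
      have h1 : HasDerivAt (fun v : ℂ => circleMap c R θ - v) (-1) v := by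
        simpa using (hasDerivAt_id v).const_sub (circleMap c R θ)
      have h2 := (hasDerivAt_const v (g (circleMap c R θ))).fun_div h1 (hne v hv θ)
      have h3 := h2.const_smul (deriv (circleMap c R) θ)
      refine h3.congr_deriv ?_
      congr 1
      ring)
  exact key.2.differentiableAt

lemma annulus {X : ℂ → ℂ} (hX : Differentiable ℂ X) {c w : ℂ} {r s : ℝ} (hr : 0 < r)
    (h1 : r < ‖w - c‖) (h2 : ‖w - c‖ < s) (hne : ∀ z, r ≤ ‖z - c‖ → ‖z - c‖ ≤ s → X z ≠ 0) :
    (∮ z in C(c, s), (X z)⁻¹ / (z - w)) - (∮ z in C(c, r), (X z)⁻¹ / (z - w)) =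
      (X w)⁻¹ * (2 * π * Complex.I) := by
  have hs : 0 < s := (norm_nonneg _).trans_lt h2
  have hrs : r < s := h1.trans h2
  set Y : ℂ → ℂ := fun z => (X z)⁻¹ with hY
  have hYd : ∀ z, r ≤ ‖z - c‖ → ‖z - c‖ ≤ s → DifferentiableAt ℂ Y z := fun z hz hz' =>
    (hX z).inv (hne z hz hz')
  set K : Set ℂ := closedBall c s \ ball c r with hK
  have hKmem : ∀ z, z ∈ K ↔ r ≤ ‖z - c‖ ∧ ‖z - c‖ ≤ s := by
    intro z
    rw [hK, mem_sdiff, mem_closedBall, mem_ball, dist_eq_norm, not_lt]
    exact and_comm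
  have hKn : K ∈ 𝓝 w := by
    have h3 : ball c s ∩ (closedBall c r)ᶜ ∈ 𝓝 w := by
      apply (isOpen_ball.inter isClosed_closedBall.isOpen_compl).mem_nhds
      refine ⟨by rw [mem_ball, dist_eq_norm]; exact h2, ?_⟩
      rw [mem_compl_iff, mem_closedBall, dist_eq_norm, not_le]
      exact h1
    refine Filter.mem_of_superset h3 fun z hz => ?_
    rw [hKmem]
    obtain ⟨ha, hb⟩ := hz
    rw [mem_ball, dist_eq_norm] at ha
    rw [mem_compl_iff, mem_closedBall, dist_eq_norm, not_le] at hb
    exact ⟨hb.le, ha.le⟩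
  have hc : ContinuousOn (dslope Y w) K := by
    rw [continuousOn_dslope hKn]
    refine ⟨fun z hz => ?_, hYd w h1.le h2.le⟩
    obtain ⟨ha, hb⟩ := (hKmem z).mp hz
    exact (hYd z ha hb).continuousAt.continuousWithinAt
  have hd : ∀ z ∈ (ball c s \ closedBall c r) \ {w}, DifferentiableAt ℂ (dslope Y w) z := by
    rintro z ⟨⟨ha, hb⟩, hz⟩
    rw [mem_ball, dist_eq_norm] at ha
    rw [mem_closedBall, dist_eq_norm, not_le] at hb
    rw [differentiableAt_dslope_of_ne hz]
    exact hYd z hb.le ha.le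
  have heq := Complex.circleIntegral_eq_of_differentiable_on_annulus_off_countable hr hrs.le
    (countable_singleton w) hc hd
  -- the integrals of the divided difference
  have hsplit : ∀ t : ℝ, 0 < t → r ≤ t → t ≤ s → ‖w - c‖ ≠ t →
      (∮ z in C(c, t), dslope Y w z) =
        (∮ z in C(c, t), Y z / (z - w)) - Y w * ∮ z in C(c, t), (z - w)⁻¹ := by
    intro t ht hrt hts hwt
    have hzw : ∀ z ∈ sphere c t, z - w ≠ 0 := by
      intro z hz h0
      rw [mem_sphere, dist_eq_norm] at hz
      rw [sub_eq_zero] at h0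
      rw [h0] at hz
      exact hwt hz
    have i1 : CircleIntegrable (fun z => Y z / (z - w)) c t := by
      apply ContinuousOn.circleIntegrable ht.le
      intro z hz
      have hz' := hz
      rw [mem_sphere, dist_eq_norm] at hz'
      exact ((hYd z (by rw [hz']; exact hrt) (by rw [hz']; exact hts)).continuousAt.div
        (by fun_prop) (hzw z hz)).continuousWithinAt
    have i2 : CircleIntegrable (fun z => Y w * (z - w)⁻¹) c t := by
      apply ContinuousOn.circleIntegrable ht.le
      intro z hz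
      exact (continuousAt_const.mul
        ((continuousAt_id.sub continuousAt_const).inv₀ (hzw z hz))).continuousWithinAt
    rw [← circleIntegral.integral_const_mul, ← circleIntegral.integral_sub i1 i2]
    apply circleIntegral.integral_congr ht.le
    intro z hz
    have hne' : z ≠ w := sub_ne_zero.mp (hzw z hz)
    simp only
    rw [dslope_of_ne _ hne', slope_def_field]
    have := hzw z hz
    field_simp
  rw [hsplit s hs hrs.le le_rfl h2.ne, hsplit r hr le_rfl hrs.le h1.ne'] at heq
  have e1 : (∮ z in C(c, s), (z - w)⁻¹) = 2 * π * Complex.I :=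
    circleIntegral.integral_sub_inv_of_mem_ball (by rw [mem_ball, dist_eq_norm]; exact h2)
  have e2 : (∮ z in C(c, r), (z - w)⁻¹) = 0 := by
    have hzw : ∀ z ∈ closedBall c r, z - w ≠ 0 := by
      intro z hz h0
      rw [mem_closedBall, dist_eq_norm] at hz
      rw [sub_eq_zero] at h0
      rw [h0] at hz
      linarith
    apply Complex.circleIntegral_eq_zero_of_differentiable_on_off_countable hr.le countable_empty
    · intro z hz
      exact ((continuousAt_id.sub continuousAt_const).inv₀ (hzw z hz)).continuousWithinAt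
    · intro z hz
      exact (differentiableAt_id.sub (differentiableAt_const w)).inv
        (hzw z (ball_subset_closedBall hz.1))
  rw [e1, e2, mul_zero, sub_zero] at heq
  linear_combination heq

lemma one {X : ℂ → ℂ} {c : ℂ} {r η μ : ℝ} (hX : Differentiable ℂ X) (hr : 0 < r) (hη : 0 < η)
    (hμ : 0 < μ) (hz : ∀ w, X w = 0 → η ≤ |‖w - c‖ - r|) (hm : ∀ w, ‖w - c‖ = r → μ ≤ ‖X w‖) :
    ∃ F : ℂ → ℂ, Differentiable ℂ F ∧
      (∀ w, X w = 0 → (‖w - c‖ < r → F w = 1) ∧ (r < ‖w - c‖ → F w = 0)) ∧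
      ∀ w, r + η / 2 ≤ ‖w - c‖ → ‖F w‖ ≤ 2 * r / (η * μ) * ‖X w‖ := by
  classical
  set s : ℝ := r + η / 2 with hs
  have hs0 : 0 < s := by positivity
  have hrs : r < s := by rw [hs]; linarith
  have hne : ∀ z, r ≤ ‖z - c‖ → ‖z - c‖ ≤ s → X z ≠ 0 := by
    intro z h1 h2 h0
    have := hz z h0
    rw [abs_of_nonneg (by linarith)] at this
    linarith
  set κ : ℝ → ℂ → ℂ := fun t w => (2 * π * Complex.I)⁻¹ * ∮ z in C(c, t), (X z)⁻¹ / (z - w) with hκ
  have hcirc : ∀ t, 0 < t → r ≤ t → t ≤ s → Continuous fun θ : ℝ => (X (circleMap c t θ))⁻¹ := by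
    intro t ht h1 h2
    refine (hX.continuous.comp (continuous_circleMap c t)).inv₀ fun θ => ?_
    have h3 : ‖circleMap c t θ - c‖ = t := by
      rw [circleMap_sub_center, norm_circleMap_zero, abs_of_pos ht]
    exact hne _ (by rw [h3]; exact h1) (by rw [h3]; exact h2)
  have hκd : ∀ t, 0 < t → r ≤ t → t ≤ s → ∀ w, ‖w - c‖ ≠ t → DifferentiableAt ℂ (κ t) w := by
    intro t ht h1 h2 w hw
    exact (cauchy_diff (g := fun z => (X z)⁻¹) ht (hcirc t ht h1 h2) hw).const_mul _
  have hpi : (2 * π * Complex.I : ℂ) ≠ 0 := Complex.two_pi_I_ne_zero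
  have hjump : ∀ w, r < ‖w - c‖ → ‖w - c‖ < s → 1 - X w * κ s w = -(X w * κ r w) := by
    intro w h1 h2
    have h3 := annulus hX hr h1 h2 hne
    have h4 : κ s w - κ r w = (X w)⁻¹ := by
      rw [hκ]
      simp only
      rw [← mul_sub, h3]
      field_simp
    have h5 : X w ≠ 0 := hne w h1.le h2.le
    have h6 : X w * (κ s w - κ r w) = 1 := by rw [h4, mul_inv_cancel₀ h5]
    linear_combination -h6
  refine ⟨fun w => if ‖w - c‖ < s then 1 - X w * κ s w else -(X w * κ r w), ?_, ?_, ?_⟩
  · intro w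
    by_cases hw : ‖w - c‖ < s
    · have h1 : (fun w => if ‖w - c‖ < s then 1 - X w * κ s w else -(X w * κ r w)) =ᶠ[𝓝 w]
          fun w => 1 - X w * κ s w := by
        have h2 : {v : ℂ | ‖v - c‖ < s} ∈ 𝓝 w :=
          (isOpen_lt (by fun_prop) continuous_const).mem_nhds hw
        filter_upwards [h2] with v hv
        exact if_pos hv
      refine DifferentiableAt.congr_of_eventuallyEq ?_ h1
      exact (differentiableAt_const 1).sub ((hX w).mul (hκd s hs0 hrs.le le_rfl w hw.ne))
    · rw [not_lt] at hw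
      have h1 : (fun w => if ‖w - c‖ < s then 1 - X w * κ s w else -(X w * κ r w)) =ᶠ[𝓝 w]
          fun w => -(X w * κ r w) := by
        have h2 : {v : ℂ | r < ‖v - c‖} ∈ 𝓝 w :=
          (isOpen_lt continuous_const (by fun_prop)).mem_nhds (lt_of_lt_of_le hrs hw)
        filter_upwards [h2] with v hv
        split_ifs with h3
        · exact hjump v hv h3
        · rfl
      refine DifferentiableAt.congr_of_eventuallyEq ?_ h1
      exact ((hX w).mul (hκd r hr le_rfl hrs.le w (lt_of_lt_of_le hrs hw).ne')).neg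
  · intro w hw
    refine ⟨fun h => ?_, fun h => ?_⟩
    · simp only
      rw [if_pos (h.trans hrs), hw, zero_mul, sub_zero]
    · have h1 := hz w hw
      rw [abs_of_pos (by linarith)] at h1
      simp only
      rw [if_neg (by rw [not_lt, hs]; linarith), hw, zero_mul, neg_zero]
  · intro w hw
    simp only
    rw [if_neg (not_lt.mpr hw), norm_neg, norm_mul, mul_comm]
    refine mul_le_mul_of_nonneg_right ?_ (norm_nonneg _)
    have h1 : ∀ z ∈ sphere c r, ‖(X z)⁻¹ / (z - w)‖ ≤ μ⁻¹ / (η / 2) := by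
      intro z hz'
      rw [mem_sphere, dist_eq_norm] at hz'
      rw [norm_div, norm_inv]
      have h2 : η / 2 ≤ ‖z - w‖ := by
        have := norm_sub_norm_le (w - c) (z - c)
        rw [sub_sub_sub_cancel_right, norm_sub_rev w z] at this
        linarith
      exact div_le_div₀ (by positivity) (inv_anti₀ hμ (hm z hz')) (by positivity) h2
    have h2 := circleIntegral.norm_two_pi_i_inv_smul_integral_le_of_norm_le_const hr.le h1
    rw [smul_eq_mul] at h2
    refine h2.trans (le_of_eq ?_)
    field_simp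

/-- **EW-INT.** -/
theorem int : S_Int := by
  intro X w1 w2 r η μ hX hr hη hηr hμ hw hz hm
  obtain ⟨F1, hF1, hv1, hb1⟩ := one hX hr hη hμ (fun w h => (hz w h).1) (fun w h => hm w (Or.inl h))
  obtain ⟨F2, hF2, hv2, hb2⟩ := one hX hr hη hμ (fun w h => (hz w h).2) (fun w h => hm w (Or.inr h))
  have htri : ∀ w, ‖w1 - w2‖ ≤ ‖w - w1‖ + ‖w - w2‖ := by
    intro w
    have := norm_sub_le (w - w2) (w - w1)
    rw [sub_sub_sub_cancel_left] at this
    linarith
  refine ⟨fun w => F1 w - F2 w, hF1.sub hF2, fun w h0 => ⟨fun h => ?_, fun h => ?_, fun h h' => ?_⟩,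
    fun w h h' => ?_⟩
  · have := htri w
    simp only
    rw [(hv1 w h0).1 h, (hv2 w h0).2 (by linarith), sub_zero]
  · have := htri w
    simp only
    rw [(hv1 w h0).2 (by linarith), (hv2 w h0).1 h, zero_sub]
  · simp only
    rw [(hv1 w h0).2 h, (hv2 w h0).2 h', sub_zero]
  · have h1 := hb1 w h
    have h2 := hb2 w h'
    have h3 := norm_sub_le (F1 w) (F2 w)
    have h4 : 8 * r / (η * μ) = 4 * (2 * r / (η * μ)) := by ring
    have h5 : 0 ≤ 2 * r / (η * μ) * ‖X w‖ := by positivity
    rw [h4]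
    simp only
    linarith

end Pool.Agent.Q164.EW
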