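import Pool.Agent.Q286.EW.Stm

/-!
# EW-KER: a smooth kernel with small support
-/

set_option autoImplicit false

namespace Pool.Agent.Q164.EW

open MeasureTheory Pool.Agent.Q286.EW

lemma TT_bound {g : ℝ → ℂ} (hg : Continuous g) (hc : HasCompactSupport g)
    (hs : ∀ x, 1 < |x| → g x = 0) {u : ℂ} (hu : |u.re| ≤ 1) :
    ‖Y23.TT g u‖ ≤ Real.exp 1 * ∫ x, ‖g x‖ := by
  unfold Y23.TT
  rw [← integral_const_mul]
  refine norm_integral_le_of_norm_le
    ((hg.integrable_of_hasCompactSupport hc).norm.const_mul _) (ae_of_all _ fun x => ?_)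
  rw [norm_mul, Complex.norm_exp]
  by_cases hx : 1 < |x|
  · rw [hs x hx]; simp
  · rw [mul_comm]
    refine mul_le_mul_of_nonneg_right ?_ (norm_nonneg _)
    apply Real.exp_le_exp.mpr
    have h1 : (u * (x : ℂ)).re = u.re * x := by simp
    rw [h1]
    calc u.re * x ≤ |u.re * x| := le_abs_self _
      _ = |u.re| * |x| := abs_mul _ _
      _ ≤ 1 * 1 := mul_le_mul hu (not_lt.mp hx) (abs_nonneg _) (by norm_num)
      _ = 1 := one_mul 1

lemma TT_deriv {f : ℝ → ℂ} (hf : ContDiff ℝ ((⊤ : ℕ∞) : WithTop ℕ∞) f) (hc : HasCompactSupport f) (u : ℂ) :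
    u * Y23.TT f u = -Y23.TT (deriv f) u := by
  unfold Y23.TT
  have hd : ∀ x, HasDerivAt f (deriv f x) x := fun x =>
    ((hf.differentiable (by simp)) x).hasDerivAt
  have he : ∀ x : ℝ, HasDerivAt (fun y : ℝ => Complex.exp (u * y)) (Complex.exp (u * x) * u) x := by
    intro x
    have h1 : HasDerivAt (fun y : ℝ => u * (y : ℂ)) u x := by
      have := (Complex.ofRealCLM.hasDerivAt (x := x)).const_mul u
      simpa using this
    exact h1.cexp
  have hec : Continuous (fun y : ℝ => Complex.exp (u * y)) := by fun_prop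
  have hfc : Continuous f := hf.continuous
  have hdc : Continuous (deriv f) := hf.continuous_deriv (by simp)
  have i1 : Integrable (f * fun x : ℝ => Complex.exp (u * x) * u) :=
    (hfc.mul (hec.mul continuous_const)).integrable_of_hasCompactSupport hc.mul_right
  have i2 : Integrable (deriv f * fun x : ℝ => Complex.exp (u * x)) :=
    (hdc.mul hec).integrable_of_hasCompactSupport hc.deriv.mul_right
  have i3 : Integrable (f * fun x : ℝ => Complex.exp (u * x)) :=
    (hfc.mul hec).integrable_of_hasCompactSupport hc.mul_right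
  have := integral_mul_deriv_eq_deriv_mul_of_integrable
    (fun x _ => hd x) (fun x _ => he x) i1 i2 i3
  rw [← this, ← integral_const_mul]
  exact integral_congr_ae (ae_of_all _ fun x => by ring)

theorem ker : S_Ker := by
  intro h hh
  obtain ⟨φ, hφ⟩ : ∃ φ : ContDiffBump (0 : ℝ), φ.rOut = min h (1 / 16) := by
    refine ⟨⟨min h (1 / 16) / 2, min h (1 / 16), ?_, ?_⟩, rfl⟩
    · positivity
    · have : 0 < min h (1 / 16) := by positivity
      linarith
  have hr0 : 0 < min h (1 / 16) := by positivity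
  set κ : ℝ → ℂ := fun x => ((φ x : ℝ) : ℂ) with hκ
  have hsupp : ∀ x : ℝ, min h (1 / 16) ≤ |x| → φ x = 0 := by
    intro x hx
    apply φ.zero_of_le_dist
    rw [hφ, Real.dist_eq, sub_zero]
    exact hx
  have hcR : HasCompactSupport (φ : ℝ → ℝ) := φ.hasCompactSupport
  have hcκ : HasCompactSupport κ := hcR.comp_left (g := fun t : ℝ => (t : ℂ)) (by simp)
  have hsm : ContDiff ℝ ((⊤ : ℕ∞) : WithTop ℕ∞) κ := Complex.ofRealCLM.contDiff.comp φ.contDiff
  have hcont : Continuous κ := hsm.continuous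
  have hφc : Continuous (φ : ℝ → ℝ) := φ.continuous
  have hφi : Integrable (φ : ℝ → ℝ) := hφc.integrable_of_hasCompactSupport hcR
  have hJ : 0 < ∫ x, φ x := φ.integral_pos
  set J : ℝ := ∫ x, φ x with hJdef
  have hn1 : ∀ x, ‖κ x‖ = φ x := fun x => by
    rw [hκ]
    simp only [Complex.norm_real, Real.norm_eq_abs]
    exact abs_of_nonneg φ.nonneg
  -- supports of the derivatives
  have hsd : ∀ g : ℝ → ℂ, (∀ x, 1 < |x| → g x = 0) → ∀ x, 1 < |x| → deriv g x = 0 := by
    intro g hg x hx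
    have h1 : g =ᶠ[nhds x] fun _ => 0 := by
      have h2 : {y : ℝ | 1 < |y|} ∈ nhds x := (isOpen_lt continuous_const continuous_abs).mem_nhds hx
      filter_upwards [h2] with y hy using hg y hy
    rw [h1.deriv_eq]
    simp
  have hs0 : ∀ x, 1 < |x| → κ x = 0 := by
    intro x hx
    rw [hκ]
    simp only
    rw [hsupp x ((min_le_right _ _).trans (by linarith))]
    simp
  have hdsm : ∀ g : ℝ → ℂ, ContDiff ℝ ((⊤ : ℕ∞) : WithTop ℕ∞) g → ContDiff ℝ ((⊤ : ℕ∞) : WithTop ℕ∞) (deriv g) := by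
    intro g hg
    exact (contDiff_infty_iff_deriv.mp hg).2
  set κ1 := deriv κ with hκ1
  set κ2 := deriv κ1 with hκ2
  set κ3 := deriv κ2 with hκ3
  have s1 := hdsm κ hsm
  have s2 := hdsm κ1 s1
  have s3 := hdsm κ2 s2
  have c1 : HasCompactSupport κ1 := hcκ.deriv
  have c2 : HasCompactSupport κ2 := c1.deriv
  have c3 : HasCompactSupport κ3 := c2.deriv
  have z1 := hsd κ hs0
  have z2 := hsd κ1 z1
  have z3 := hsd κ2 z2
  have h3 : ∀ u : ℂ, u ^ 3 * Y23.TT κ u = -Y23.TT κ3 u := by
    intro u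
    have e1 := TT_deriv hsm hcκ u
    have e2 := TT_deriv s1 c1 u
    have e3 := TT_deriv s2 c2 u
    rw [← hκ1] at e1
    rw [← hκ2] at e2
    rw [← hκ3] at e3
    linear_combination u ^ 2 * e1 - u * e2 + e3
  set A0 : ℝ := Real.exp 1 * ∫ x, ‖κ x‖ with hA0
  set A3 : ℝ := Real.exp 1 * ∫ x, ‖κ3 x‖ with hA3
  have hA0n : 0 ≤ A0 := mul_nonneg (Real.exp_pos _).le (integral_nonneg fun x => norm_nonneg _)
  have hA3n : 0 ≤ A3 := mul_nonneg (Real.exp_pos _).le (integral_nonneg fun x => norm_nonneg _)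
  refine ⟨κ, 1 + 4 * (A0 + A3), J ^ 2 * (7 / 16), by positivity, by positivity, ⟨?_, ?_⟩, ?_, ?_, ?_⟩
  · exact hcont.memLp_of_hasCompactSupport hcκ
  · intro x hx
    rw [hκ]
    simp only
    rw [hsupp x ((min_le_left _ _).trans hx.le)]
    simp
  · intro x
    rw [hn1]
    have := φ.le_one (x := x)
    linarith
  · intro u hu
    have b0 := TT_bound hcont hcκ hs0 hu
    have b3 := TT_bound s3.continuous c3 z3 hu
    rw [← hA0] at b0
    rw [← hA3] at b3
    have b4 : ‖u‖ ^ 3 * ‖Y23.TT κ u‖ ≤ A3 := by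
      rw [← norm_pow, ← norm_mul, h3 u, norm_neg]
      exact b3
    have b5 : |u.im| ≤ ‖u‖ := Complex.abs_im_le_norm u
    have ht : 0 ≤ |u.im| := abs_nonneg _
    have b6 : |u.im| ^ 3 * ‖Y23.TT κ u‖ ≤ A3 :=
      (mul_le_mul_of_nonneg_right (pow_le_pow_left₀ ht b5 3) (norm_nonneg _)).trans b4
    rw [le_div_iff₀ (by positivity)]
    have b7 : (1 + |u.im|) ^ 3 ≤ 4 * (1 + |u.im| ^ 3) := by
      nlinarith [mul_nonneg ht (sq_nonneg (|u.im| - 1)), sq_nonneg (|u.im| - 1)]
    have b8 : ‖Y23.TT κ u‖ * (1 + |u.im|) ^ 3 ≤ ‖Y23.TT κ u‖ * (4 * (1 + |u.im| ^ 3)) :=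
      mul_le_mul_of_nonneg_left b7 (norm_nonneg _)
    nlinarith
  · intro u hu
    -- the value near J
    have key : ∀ v : ℂ, ‖v‖ ≤ 2 → ‖Y23.TT κ v - J‖ ≤ J / 4 := by
      intro v hv
      have e1 : (J : ℂ) = ∫ x, κ x := by
        rw [hJdef, hκ]
        exact (integral_ofReal).symm
      have i1 : Integrable κ := hcont.integrable_of_hasCompactSupport hcκ
      have hec : Continuous (fun y : ℝ => Complex.exp (v * y)) := by fun_prop
      have i2 : Integrable (fun x : ℝ => κ x * Complex.exp (v * x)) :=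
        (hcont.mul hec).integrable_of_hasCompactSupport hcκ.mul_right
      rw [e1]
      unfold Y23.TT
      rw [← integral_sub i2 i1]
      have e2 : J / 4 = ∫ x, φ x * (1 / 4) := by
        rw [integral_mul_const, ← hJdef]; ring
      rw [e2]
      refine norm_integral_le_of_norm_le (hφi.mul_const _) (ae_of_all _ fun x => ?_)
      have e3 : κ x * Complex.exp (v * x) - κ x = κ x * (Complex.exp (v * x) - 1) := by ring
      rw [e3, norm_mul, hn1]
      by_cases hx : min h (1 / 16) ≤ |x|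
      · rw [hsupp x hx]; simp
      · rw [not_le] at hx
        have hx' : |x| ≤ 1 / 16 := hx.le.trans (min_le_right _ _)
        have hvx : ‖v * (x : ℂ)‖ ≤ 1 / 8 := by
          rw [norm_mul, Complex.norm_real, Real.norm_eq_abs]
          calc ‖v‖ * |x| ≤ 2 * (1 / 16) := mul_le_mul hv hx' (abs_nonneg _) (by norm_num)
            _ = 1 / 8 := by norm_num
        refine mul_le_mul_of_nonneg_left ?_ φ.nonneg
        have := Complex.norm_exp_sub_one_le (x := v * (x : ℂ)) (by linarith)
        linarith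
    have hconj : (starRingEnd ℂ) (Y23.TT κ (-(starRingEnd ℂ) u)) = Y23.TT κ (-u) := by
      unfold Y23.TT
      rw [← integral_conj]
      refine integral_congr_ae (ae_of_all _ fun x => ?_)
      simp only [map_mul, hκ, Complex.conj_ofReal, ← Complex.exp_conj, map_neg, Complex.conj_conj]
    rw [hconj]
    have k1 := key u hu
    have k2 := key (-u) (by rw [norm_neg]; exact hu)
    set a := Y23.TT κ u - J with ha
    set b := Y23.TT κ (-u) - J with hb
    have e1 : Y23.TT κ u * Y23.TT κ (-u) = (J : ℂ) ^ 2 + (J * (a + b) + a * b) := by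
      rw [ha, hb]; ring
    rw [e1, Complex.add_re]
    have e2 : ((J : ℂ) ^ 2).re = J ^ 2 := by
      rw [← Complex.ofReal_pow, Complex.ofReal_re]
    rw [e2]
    have e3 : |(J * (a + b) + a * b).re| ≤ ‖(J * (a + b) + a * b : ℂ)‖ := Complex.abs_re_le_norm _
    have e4 : ‖(J * (a + b) + a * b : ℂ)‖ ≤ J * (J / 4 + J / 4) + J / 4 * (J / 4) := by
      refine (norm_add_le _ _).trans (add_le_add ?_ ?_)
      · rw [norm_mul, Complex.norm_real, Real.norm_eq_abs, abs_of_pos hJ]
        exact mul_le_mul_of_nonneg_left ((norm_add_le _ _).trans (add_le_add k1 k2)) hJ.le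
      · rw [norm_mul]
        exact mul_le_mul k1 k2 (norm_nonneg _) (by positivity)
    have e5 := neg_abs_le (J * (a + b) + a * b).re
    nlinarith [sq_nonneg J]

end Pool.Agent.Q164.EW
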