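import Pool.Agent.Q286.EW.Stm2
import Pool.Agent.Q285.EW.Rot

/-!
# Project EWC, second part: the rotated bounds of the completed L-function, uniformly in the angle
-/

set_option autoImplicit false
set_option linter.unusedSectionVars false
set_option maxHeartbeats 2000000

open Complex Filter Topology Set MeasureTheory Metric
open scoped ComplexConjugate

namespace Pool.Agent.Q164.EW.RU

open Pool.Agent.Q286.EW Pool.Agent.Y23.G Pool.Agent.Q285.EW
open Pool.Agent.W169.HF H353.E Pool.Agent.W355.UN Pool.Agent.TH839.NA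

variable [L : LFun]

/-- bounds to the right -/
lemma X_rightU : ∃ A A1 : ℝ, 0 ≤ A ∧ 0 ≤ A1 ∧ ∀ φ : ℝ, 0 ≤ φ → φ < Real.pi / 2 → ∀ w : ℂ, 2 ≤ w.re →
    ‖L.X (1 / 2 + w)‖ * Real.exp (L.m * φ / 2 * |w.im|) ≤
      Real.exp (A1 * -Real.log (Real.cos φ) + Ek L.m (kp + Real.log (Real.cos φ)) A w.re) / (1 + w.im ^ 2) := by
  obtain ⟨α, hα0, hα⟩ : ∃ α : ℝ, 0 ≤ α ∧ ∀ j, ‖L.a j‖ ≤ α :=
    ⟨∑ j, ‖L.a j‖, Finset.sum_nonneg fun j _ => norm_nonneg _, fun j =>
      Finset.single_le_sum (f := fun j => ‖L.a j‖) (fun i _ => norm_nonneg _) (Finset.mem_univ j)⟩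
  have hm : (1 : ℝ) ≤ L.m := by exact_mod_cast L.raw.hm
  have hm0 : (0 : ℝ) < L.m := by linarith
  have hN1 := L.raw.hN
  have hN0 : 0 < L.N := by linarith
  have hN := Real.log_nonneg hN1
  have hsum : LSeriesSummable L.b (5 / 2) := (L.raw.coef (s := (5 / 2 : ℂ)) (by
    have : (5 / 2 : ℂ).re = 5 / 2 := by norm_num
    rw [this]; norm_num)).1
  set B0 : ℝ := ∑' n, ‖LSeries.term L.b (5 / 2) n‖ with hB0
  have hB00 : 0 ≤ B0 := tsum_nonneg fun _ => norm_nonneg _
  set K0 : ℝ := (5 + α) + (5 + α) ^ 2 + 1 + 16 + 4 * (2 + α) + Real.pi * α with hK0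
  have hK00 : 0 ≤ K0 := by positivity
  set A : ℝ := L.m * (5 + α) + 2 * L.m + L.m * K0 + Real.log L.N + B0 with hA
  have hA0 : 0 ≤ A := by positivity
  refine ⟨A, L.m * (5 + α), hA0, by positivity, fun φ hφ0 hφ1 w hw => ?_⟩
  set lam : ℝ := -Real.log (Real.cos φ) with hlam
  have hlam0 : 0 ≤ lam := lam_nonneg hφ0 hφ1
  have hkl : (kp (L := L)) + Real.log (Real.cos φ) = kp - lam := by rw [hlam]; ring
  rw [hkl]
  set K1 : ℝ := (5 + α) + (5 + α) ^ 2 + 1 + 16 + 4 * (2 + α) + (φ * α / 2 + lam * (5 + α)) with hK1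
  have hK10 : 0 ≤ K1 := by positivity
  have hK10' : K1 ≤ K0 + lam * (5 + α) := by
    have h1 : φ * α / 2 ≤ Real.pi * α := by nlinarith [Real.pi_pos]
    rw [hK1, hK0]
    linarith
  set s : ℂ := 1 / 2 + w with hs
  set σ := w.re with hσ
  have hsre : s.re = 1 / 2 + σ := by rw [hs, hσ]; simp
  have hsim : s.im = w.im := by rw [hs]; simp
  have hs12 : s.re - 1 / 2 = σ := by rw [hsre]; ring
  have hL1 : ‖LSeries L.b s‖ ≤ B0 := by
    have h3 : ∀ n, ‖LSeries.term L.b s n‖ ≤ ‖LSeries.term L.b (5 / 2) n‖ := fun n =>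
      LSeries.norm_term_le_of_re_le_re L.b (by
        have : (5 / 2 : ℂ).re = 5 / 2 := by norm_num
        rw [this, hsre]; linarith) n
    have h4 : Summable fun n => ‖LSeries.term L.b (5 / 2) n‖ := hsum.norm
    have h5 : Summable fun n => ‖LSeries.term L.b s n‖ :=
      Summable.of_nonneg_of_le (fun _ => norm_nonneg _) h3 h4
    unfold LSeries
    exact (norm_tsum_le_tsum_norm h5).trans (h5.tsum_le_tsum h3 h4)
  have hgam : ‖∏ j, Gammaℝ (s + L.a j)‖ * Real.exp (L.m * φ / 2 * |w.im|) ≤ (Real.exp (σ / 2 * (Real.log (σ / 2) - 1 - Real.log Real.pi + lam) +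
      (5 + α) * Real.log (σ / 2) + K1) / (1 + |w.im|) ^ 4) ^ L.m := by
    have hE : Real.exp (L.m * φ / 2 * |w.im|) = ∏ j : Fin L.m, Real.exp (φ / 2 * |w.im|) := by
      rw [Finset.prod_const, Finset.card_univ, Fintype.card_fin, ← Real.exp_nat_mul]
      congr 1
      ring
    rw [norm_prod, hE, ← Finset.prod_mul_distrib]
    have h1 : ∀ j ∈ (Finset.univ : Finset (Fin L.m)), ‖Gammaℝ (s + L.a j)‖ * Real.exp (φ / 2 * |w.im|) ≤ Real.exp (σ / 2 * (Real.log (σ / 2) - 1 - Real.log Real.pi + lam) +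
      (5 + α) * Real.log (σ / 2) + K1) / (1 + |w.im|) ^ 4 := by
      intro j _
      have h2 := gam_facR hφ0 hφ1 j (hα j) (s := s) (by rw [hsre]; linarith)
      rw [hs12, hsim] at h2
      exact h2
    refine (Finset.prod_le_prod (fun j _ => by positivity) h1).trans (le_of_eq ?_)
    rw [Finset.prod_const, Finset.card_univ, Fintype.card_fin]
  have hNn : ‖(L.N : ℂ) ^ (s / 2)‖ ≤ Real.exp (σ / 2 * Real.log L.N + Real.log L.N) := by
    rw [Complex.norm_cpow_eq_rpow_re_of_pos hN0, Real.rpow_def_of_pos hN0]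
    apply Real.exp_le_exp.2
    have e : (s / 2).re = (1 / 2 + σ) / 2 := by
      rw [show (2 : ℂ) = ((2 : ℝ) : ℂ) by norm_num, Complex.div_ofReal_re, hsre]
    rw [e]
    nlinarith
  have hσ0 : 0 < σ := by linarith
  have hy := abs_nonneg w.im
  have hnw : ‖w‖ ≤ σ + |w.im| := by
    have := Complex.norm_le_abs_re_add_abs_im w
    rwa [abs_of_pos hσ0] at this
  have hss : ‖(s * (s - 1)) ^ L.r‖ ≤ ((1 + σ) * (1 + |w.im|)) ^ (2 * L.m) := by
    have h1 : ‖s‖ ≤ (1 + σ) * (1 + |w.im|) := by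
      have h2 : ‖s‖ ≤ 1 / 2 + ‖w‖ := by
        rw [hs]
        refine (norm_add_le _ _).trans ?_
        norm_num
      nlinarith
    have h2 : ‖s - 1‖ ≤ (1 + σ) * (1 + |w.im|) := by
      have h2 : ‖s - 1‖ ≤ 1 / 2 + ‖w‖ := by
        have : s - 1 = -(1 / 2) + w := by rw [hs]; ring
        rw [this]
        refine (norm_add_le _ _).trans ?_
        norm_num
      nlinarith
    have h3 : 1 ≤ (1 + σ) * (1 + |w.im|) := by nlinarith
    rw [norm_pow, norm_mul]
    calc (‖s‖ * ‖s - 1‖) ^ L.r ≤ (((1 + σ) * (1 + |w.im|)) * ((1 + σ) * (1 + |w.im|))) ^ L.r := by gcongr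
      _ = ((1 + σ) * (1 + |w.im|)) ^ (2 * L.r) := by rw [pow_mul, sq]
      _ ≤ _ := pow_le_pow_right₀ h3 (by have := L.raw.hr; omega)
  rw [show L.X s = gaf L.N (fun j => -L.a j) s * ((s * (s - 1)) ^ L.r * LSeries L.b s) from
    L.raw.eq' (by rw [hsre]; linarith)]
  unfold gaf
  have hprod : (∏ j, Gammaℝ (s - -L.a j)) = ∏ j, Gammaℝ (s + L.a j) := by
    refine Finset.prod_congr rfl fun j _ => ?_
    rw [sub_neg_eq_add]
  rw [hprod, norm_mul, norm_mul, norm_mul]
  have e1 : (Real.exp (σ / 2 * (Real.log (σ / 2) - 1 - Real.log Real.pi + lam) + (5 + α) * Real.log (σ / 2) + K1) / (1 + |w.im|) ^ 4) ^ L.m =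
      Real.exp (L.m * (σ / 2 * (Real.log (σ / 2) - 1 - Real.log Real.pi + lam) + (5 + α) * Real.log (σ / 2) + K1)) / (1 + |w.im|) ^ (4 * L.m) := by
    rw [div_pow, ← Real.exp_nat_mul, ← pow_mul]
  rw [e1] at hgam
  have hB0e : B0 ≤ Real.exp B0 := by linarith [Real.add_one_le_exp B0]
  have e2 : ((1 + σ) * (1 + |w.im|)) ^ (2 * L.m) = Real.exp (2 * L.m * Real.log (1 + σ)) * (1 + |w.im|) ^ (2 * L.m) := by
    rw [mul_pow]
    congr 1
    have h8 : Real.exp (2 * L.m * Real.log (1 + σ)) = Real.exp (Real.log (1 + σ)) ^ (2 * L.m) := by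
      rw [← Real.exp_nat_mul]; push_cast; rfl
    rw [h8, Real.exp_log (by linarith)]
  rw [e2] at hss
  have hpos : 0 < 1 + |w.im| := by linarith
  calc ‖(L.N : ℂ) ^ (s / 2)‖ * ‖∏ j, Gammaℝ (s + L.a j)‖ * (‖(s * (s - 1)) ^ L.r‖ * ‖LSeries L.b s‖) * Real.exp (L.m * φ / 2 * |w.im|)
      = ‖(L.N : ℂ) ^ (s / 2)‖ * (‖∏ j, Gammaℝ (s + L.a j)‖ * Real.exp (L.m * φ / 2 * |w.im|)) * (‖(s * (s - 1)) ^ L.r‖ * ‖LSeries L.b s‖) := by ring
    _ ≤ Real.exp (σ / 2 * Real.log L.N + Real.log L.N) *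
        (Real.exp (L.m * (σ / 2 * (Real.log (σ / 2) - 1 - Real.log Real.pi + lam) + (5 + α) * Real.log (σ / 2) + K1)) / (1 + |w.im|) ^ (4 * L.m)) *
        ((Real.exp (2 * L.m * Real.log (1 + σ)) * (1 + |w.im|) ^ (2 * L.m)) * Real.exp B0) := by
          have hL2 : ‖LSeries L.b s‖ ≤ Real.exp B0 := hL1.trans hB0e
          gcongr
    _ = Real.exp (σ / 2 * Real.log L.N + Real.log L.N + L.m * (σ / 2 * (Real.log (σ / 2) - 1 - Real.log Real.pi + lam) + (5 + α) * Real.log (σ / 2) + K1) +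
        2 * L.m * Real.log (1 + σ) + B0) * (1 / (1 + |w.im|) ^ (2 * L.m)) := by
          have : (1 + |w.im|) ^ (4 * L.m) = (1 + |w.im|) ^ (2 * L.m) * (1 + |w.im|) ^ (2 * L.m) := by
            rw [← pow_add]; congr 1; ring
          rw [this]
          exact alg_aux _ _ _ _ _ (by positivity)
    _ ≤ Real.exp (L.m * (5 + α) * lam + Ek L.m (kp - lam) A σ) * (1 / (1 + w.im ^ 2)) := by
        refine mul_le_mul (Real.exp_le_exp.2 ?_) ?_ (by positivity) (Real.exp_pos _).le
        · unfold Ek kp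
          have hlog2 : Real.log (σ / 2) = Real.log σ - Real.log 2 := Real.log_div hσ0.ne' two_ne_zero
          have hlogp : Real.log (2 * Real.pi) = Real.log 2 + Real.log Real.pi := Real.log_mul two_ne_zero Real.pi_pos.ne'
          have h1 : Real.log (σ / 2) ≤ Real.log (2 + σ) := Real.log_le_log (by positivity) (by linarith)
          have h2 : Real.log (1 + σ) ≤ Real.log (2 + σ) := Real.log_le_log (by positivity) (by linarith)
          have h3 : 0 ≤ Real.log (2 + σ) := Real.log_nonneg (by linarith)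
          have e3 : (L.m : ℝ) / 2 * (σ * (Real.log σ - (1 + Real.log (2 * Real.pi) - Real.log L.N / L.m - lam))) =
              L.m * (σ / 2 * (Real.log (σ / 2) - 1 - Real.log Real.pi + lam)) + σ / 2 * Real.log L.N := by
            rw [hlog2, hlogp]
            field_simp
            ring
          rw [e3]
          have h4 : (L.m : ℝ) * (5 + α) * Real.log (σ / 2) ≤ L.m * (5 + α) * Real.log (2 + σ) :=
            mul_le_mul_of_nonneg_left h1 (by positivity)
          have h5 : 2 * (L.m : ℝ) * Real.log (1 + σ) ≤ 2 * L.m * Real.log (2 + σ) :=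
            mul_le_mul_of_nonneg_left h2 (by positivity)
          have h6 : (L.m * (5 + α) + 2 * L.m) * Real.log (2 + σ) ≤ A * Real.log (2 + σ) := by
            refine mul_le_mul_of_nonneg_right ?_ h3
            rw [hA]
            have : 0 ≤ (L.m : ℝ) * K0 := by positivity
            linarith
          have h7 : L.m * K1 + Real.log L.N + B0 ≤ L.m * (5 + α) * lam + A := by
            rw [hA]
            have : 0 ≤ (L.m : ℝ) * (5 + α) := by positivity
            have h9 : (L.m : ℝ) * K1 ≤ L.m * (K0 + lam * (5 + α)) := mul_le_mul_of_nonneg_left hK10' hm0.le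
            linarith
          nlinarith
        · apply one_div_le_one_div_of_le (by positivity)
          have h1 : (1 + |w.im|) ^ 2 ≤ (1 + |w.im|) ^ (2 * L.m) :=
            pow_le_pow_right₀ (by linarith) (by have := L.raw.hm; omega)
          refine le_trans ?_ h1
          nlinarith [sq_abs w.im]
    _ = _ := by ring


/-- bounds everywhere -/
lemma X_allU : ∃ A : ℝ, 0 ≤ A ∧ ∀ φ : ℝ, 0 ≤ φ → φ < Real.pi / 2 → ∀ w : ℂ,
    ‖L.X (1 / 2 + w)‖ * Real.exp (L.m * φ / 2 * |w.im|) ≤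
      Real.exp (A * -Real.log (Real.cos φ) + Ek L.m (kp + Real.log (Real.cos φ)) A |w.re|) / (1 + w.im ^ 2) := by
  obtain ⟨A, A1, hA, hA1, hb0⟩ := X_rightU (L := L)
  set AA : ℝ := A + A1 + L.m + (Real.log 144 + 2 * A + L.m * (Real.log 2 + |kp (L := L)|) + L.m / 2 * (1 + 2 * |kp (L := L)|)) with hAA
  have hl144 : 0 ≤ Real.log 144 := Real.log_nonneg (by norm_num)
  have hl2 : 0 ≤ Real.log 2 := Real.log_nonneg (by norm_num)
  have hkp0 := abs_nonneg (kp (L := L))
  have hmm0 : (0 : ℝ) ≤ L.m := Nat.cast_nonneg _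
  have hAA0 : 0 ≤ AA := by positivity
  refine ⟨AA, hAA0, fun φ hφ0 hφ1 => ?_⟩
  set lam : ℝ := -Real.log (Real.cos φ) with hlam
  have hlam0 : 0 ≤ lam := lam_nonneg hφ0 hφ1
  have hb := hb0 φ hφ0 hφ1
  rw [← hlam] at hb
  set k : ℝ := kp + Real.log (Real.cos φ) with hk
  have hkl : k = kp - lam := by rw [hk, hlam]; ring
  have hm := m_one (L := L)
  have hm0 : (0 : ℝ) ≤ L.m := by linarith
  set θ : ℝ := L.m * φ / 2 with hθ
  have hθ0 : 0 ≤ θ := by positivity
  have hb' : ∀ w : ℂ, 2 ≤ |w.re| → ‖L.X (1 / 2 + w)‖ * Real.exp (θ * |w.im|) ≤ Real.exp (A1 * lam + Ek L.m k A |w.re|) / (1 + w.im ^ 2) := by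
    intro w hw
    rcases le_total 0 w.re with h | h
    · rw [abs_of_nonneg h] at hw ⊢
      exact hb w hw
    · rw [abs_of_nonpos h] at hw ⊢
      rw [X_reflect]
      have h1 := hb (-conj w) (by simpa using hw)
      simpa using h1
  set M : ℝ := Real.exp (A1 * lam + Ek L.m k A 2) with hM
  have hM0 : 0 < M := Real.exp_pos _
  -- the strip, one sign
  have hs1 : ∀ θ' : ℝ, |θ'| ≤ θ → ∀ w : ℂ, |w.re| ≤ 2 → ‖L.X (1 / 2 + w)‖ * Real.exp (θ' * w.im) ≤ 144 * M / (1 + w.im ^ 2) := by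
    intro θ' hθ' w hw
    set f : ℂ → ℂ := fun z => L.X (1 / 2 + z) * (z - 10) ^ 2 * cexp (-(θ' * I * z)) with hf
    have hfd : Differentiable ℂ f := by
      have : Differentiable ℂ (fun z : ℂ => L.X (1 / 2 + z)) := Xd.comp (by fun_prop)
      exact (this.mul (by fun_prop)).mul (by fun_prop)
    have hn10 : ∀ z : ℂ, ‖(z - 10 : ℂ) ^ 2‖ = (z.re - 10) ^ 2 + z.im ^ 2 := by
      intro z
      rw [norm_pow, Complex.sq_norm, Complex.normSq_apply]
      simp
      ring
    have hne : ∀ z : ℂ, ‖cexp (-(θ' * I * z))‖ = Real.exp (θ' * z.im) := by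
      intro z
      rw [Complex.norm_exp]
      congr 1
      simp only [Complex.neg_re, Complex.mul_re, Complex.mul_im, Complex.ofReal_re, Complex.ofReal_im, Complex.I_re, Complex.I_im]
      ring
    have hle : ∀ z : ℂ, θ' * z.im ≤ θ * |z.im| := by
      intro z
      calc θ' * z.im ≤ |θ' * z.im| := le_abs_self _
        _ = |θ'| * |z.im| := abs_mul _ _
        _ ≤ _ := mul_le_mul_of_nonneg_right hθ' (abs_nonneg _)
    have hedge : ∀ z : ℂ, |z.re| = 2 → ‖f z‖ ≤ 144 * M := by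
      intro z hz
      have h1 := hb' z hz.ge
      rw [hz] at h1
      simp only [hf]
      rw [norm_mul, norm_mul, hn10, hne]
      have h2 : (z.re - 10) ^ 2 + z.im ^ 2 ≤ 144 * (1 + z.im ^ 2) := by
        have h3 := abs_le.1 hz.le
        nlinarith [sq_nonneg z.im]
      have h4 : ‖L.X (1 / 2 + z)‖ * Real.exp (θ' * z.im) ≤ M / (1 + z.im ^ 2) :=
        (mul_le_mul_of_nonneg_left (Real.exp_le_exp.2 (hle z)) (norm_nonneg _)).trans h1
      calc ‖L.X (1 / 2 + z)‖ * ((z.re - 10) ^ 2 + z.im ^ 2) * Real.exp (θ' * z.im)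
          = (‖L.X (1 / 2 + z)‖ * Real.exp (θ' * z.im)) * ((z.re - 10) ^ 2 + z.im ^ 2) := by ring
        _ ≤ (M / (1 + z.im ^ 2)) * (144 * (1 + z.im ^ 2)) := by gcongr
        _ = _ := by field_simp
    have hs : Slow (fun u => L.X (1 / 2 + (1 : ℝ) * u)) := slow_affine L.raw.slow (1 / 2) one_pos
    obtain ⟨K, hK, hKb⟩ := hs.2 1 one_pos
    have hPL := PhragmenLindelof.vertical_strip (a := -2) (b := 2) (f := f) (C := 144 * M) (z := w)
      hfd.diffContOnCl ?_ (fun z hz => hedge z (by rw [hz]; norm_num)) (fun z hz => hedge z (by rw [hz]; norm_num))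
      (abs_le.1 hw).1 (abs_le.1 hw).2
    · simp only [hf] at hPL
      rw [norm_mul, norm_mul, hn10, hne] at hPL
      rw [le_div_iff₀ (by positivity)]
      refine le_trans ?_ hPL
      have h3 := (abs_le.1 hw).2
      have h5 : 1 + w.im ^ 2 ≤ (w.re - 10) ^ 2 + w.im ^ 2 := by nlinarith [sq_nonneg w.im]
      have h6 : 0 ≤ ‖L.X (1 / 2 + w)‖ * Real.exp (θ' * w.im) := by positivity
      calc ‖L.X (1 / 2 + w)‖ * Real.exp (θ' * w.im) * (1 + w.im ^ 2) ≤
          ‖L.X (1 / 2 + w)‖ * Real.exp (θ' * w.im) * ((w.re - 10) ^ 2 + w.im ^ 2) := mul_le_mul_of_nonneg_left h5 h6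
        _ = _ := by ring
    · refine ⟨1 / 2, by
        have := Real.pi_gt_three
        linarith, 14 + 2 * θ, ?_⟩
      refine Asymptotics.IsBigO.of_bound (300 * K) ?_
      refine (Filter.Eventually.filter_mono inf_le_right ?_)
      rw [Filter.eventually_principal]
      intro z hz
      have hz1 : -2 < z.re ∧ z.re < 2 := hz
      simp only [hf]
      rw [norm_mul, norm_mul, hn10, hne]
      have h1 : ‖L.X (1 / 2 + z)‖ ≤ K * Real.exp (‖z‖ ^ 2) := by
        have h0 := hKb z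
        rw [one_mul] at h0
        have e : (1 / 2 + z : ℂ) = 1 / 2 + ((1 : ℝ) : ℂ) * z := by push_cast; ring
        rw [e]
        exact h0
      set E := Real.exp (1 / 2 * |z.im|) with hE
      have hE1 : 1 ≤ E := Real.one_le_exp (by positivity)
      have hE2 : |z.im| ≤ 2 * E := by
        have := Real.add_one_le_exp (1 / 2 * |z.im|)
        rw [← hE] at this
        linarith
      have h2 : z.im ^ 2 ≤ 8 * E := by
        have h3 := Real.quadratic_le_exp_of_nonneg (x := 1 / 2 * |z.im|) (by positivity)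
        rw [← sq_abs]
        have := abs_nonneg z.im
        nlinarith
      have h3 : ‖z‖ ^ 2 ≤ 12 * E := by
        rw [Complex.sq_norm, Complex.normSq_apply]
        nlinarith
      have h4 : (z.re - 10) ^ 2 + z.im ^ 2 ≤ 300 * Real.exp E := by
        have := Real.add_one_le_exp E
        nlinarith
      have h5 : Real.exp (θ' * z.im) ≤ Real.exp (2 * θ * E) := by
        refine Real.exp_le_exp.2 ((hle z).trans ?_)
        have := mul_le_mul_of_nonneg_left hE2 hθ0
        linarith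
      rw [Real.norm_eq_abs, abs_of_pos (Real.exp_pos _)]
      calc ‖L.X (1 / 2 + z)‖ * ((z.re - 10) ^ 2 + z.im ^ 2) * Real.exp (θ' * z.im) ≤
          (K * Real.exp (12 * E)) * (300 * Real.exp E) * Real.exp (2 * θ * E) := by
            refine mul_le_mul (mul_le_mul (h1.trans ?_) h4 (by positivity) (by positivity)) h5 (Real.exp_pos _).le (by positivity)
            gcongr
        _ = 300 * K * Real.exp (13 * E + 2 * θ * E) := by
            rw [show 13 * E + 2 * θ * E = 12 * E + E + 2 * θ * E by ring, Real.exp_add, Real.exp_add]; ring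
        _ ≤ 300 * K * Real.exp ((14 + 2 * θ) * E) := by
            refine mul_le_mul_of_nonneg_left (Real.exp_le_exp.2 ?_) (by positivity)
            linarith
  have hstrip : ∀ w : ℂ, |w.re| ≤ 2 → ‖L.X (1 / 2 + w)‖ * Real.exp (θ * |w.im|) ≤ 144 * M / (1 + w.im ^ 2) := by
    intro w hw
    rcases le_total 0 w.im with h | h
    · rw [abs_of_nonneg h]
      exact hs1 θ (abs_of_nonneg hθ0).le w hw
    · rw [abs_of_nonpos h, mul_neg, ← neg_mul]
      exact hs1 (-θ) (by rw [abs_neg, abs_of_nonneg hθ0]) w hw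
  intro w
  rcases le_total 2 |w.re| with h | h
  · refine (hb' w h).trans ?_
    refine div_le_div_of_nonneg_right (Real.exp_le_exp.2 (add_le_add ?_ ?_)) (by positivity)
    · refine mul_le_mul_of_nonneg_right ?_ hlam0
      rw [hAA]
      have : 0 ≤ Real.log 144 + 2 * A + L.m * (Real.log 2 + |kp (L := L)|) + L.m / 2 * (1 + 2 * |kp (L := L)|) := by positivity
      linarith
    · refine Ek_mono ?_ (by linarith)
      rw [hAA]
      have : 0 ≤ Real.log 144 + 2 * A + L.m * (Real.log 2 + |kp (L := L)|) + L.m / 2 * (1 + 2 * |kp (L := L)|) := by positivity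
      linarith
  · refine (hstrip w h).trans ?_
    refine div_le_div_of_nonneg_right ?_ (by positivity)
    have e1 : 144 * M = Real.exp (Real.log 144 + (A1 * lam + Ek L.m k A 2)) := by
      rw [Real.exp_add, Real.exp_log (by norm_num), hM]
    rw [e1]
    apply Real.exp_le_exp.2
    have hσ := abs_nonneg w.re
    set σ := |w.re| with hσd
    -- the lower bound of the exponent
    have h1 := Ek_low (m := L.m) (k := kp (L := L)) (A := AA) hm0 hAA0 hσ h
    have h2 : Ek L.m (kp (L := L)) AA σ ≤ Ek L.m k AA σ := by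
      unfold Ek
      have h3 : Real.log σ - kp (L := L) ≤ Real.log σ - k := by rw [hkl]; linarith
      have h4 := mul_le_mul_of_nonneg_left (mul_le_mul_of_nonneg_left h3 hσ) (show 0 ≤ (L.m : ℝ) / 2 by positivity)
      linarith
    have h5 : Ek L.m k A 2 ≤ A * 3 + L.m * (Real.log 2 + |kp (L := L)|) + L.m * lam := by
      unfold Ek
      have h6 : Real.log (2 + 2) ≤ 2 := by
        have h7 : Real.log (2 + 2) = 2 * Real.log 2 := by
          rw [show (2 + 2 : ℝ) = 2 ^ 2 by norm_num, Real.log_pow]; push_cast; ring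
        rw [h7]
        linarith [Real.log_two_lt_d9]
      have h7 : A * Real.log (2 + 2) ≤ A * 2 := mul_le_mul_of_nonneg_left h6 hA
      have h8 : -kp (L := L) ≤ |kp (L := L)| := neg_le_abs _
      have h9 : (L.m : ℝ) * -kp (L := L) ≤ L.m * |kp (L := L)| := mul_le_mul_of_nonneg_left h8 hm0
      have e9 : (L.m : ℝ) / 2 * (2 * (Real.log 2 - k)) = L.m * Real.log 2 + L.m * -kp (L := L) + L.m * lam := by
        rw [hkl]
        ring
      rw [e9]
      linarith
    have h6 : AA * lam ≥ (A1 + L.m) * lam := by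
      refine mul_le_mul_of_nonneg_right ?_ hlam0
      rw [hAA]
      have : 0 ≤ Real.log 144 + 2 * A + L.m * (Real.log 2 + |kp (L := L)|) + L.m / 2 * (1 + 2 * |kp (L := L)|) := by positivity
      linarith
    have h7 : Real.log 144 + A * 3 + L.m * (Real.log 2 + |kp (L := L)|) + L.m / 2 * (1 + 2 * |kp (L := L)|) ≤ AA := by
      rw [hAA]
      linarith
    linarith

/-- **EWU-ROT** -/
theorem rotU : S_RotU := by
  intro L
  obtain ⟨A, hA, h⟩ := X_allU (L := L)
  refine ⟨A, hA, fun φ h0 h1 w => (h φ h0 h1 w).trans (le_of_eq ?_)⟩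
  have hcos : 0 < Real.cos φ := Real.cos_pos_of_mem_Ioo ⟨by linarith [Real.pi_pos], h1⟩
  rw [Real.exp_add, Real.rpow_def_of_pos hcos, show A * -Real.log (Real.cos φ) = Real.log (Real.cos φ) * -A by ring]

end Pool.Agent.Q164.EW.RU
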